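import Pool.Agent.TH131.Semi.Lin
import Pool.Agent.TH590.JH.Pure

/-!
# Semisimplicity of `ℓ`-adic cohomology: definitions
-/

set_option autoImplicit false

open CategoryTheory CategoryTheory.Limits AlgebraicGeometry

namespace Pool.Agent.TH131.Semi

open Pool.Agent.TH90.Cub Pool.Agent.TH590.JH

universe v u

attribute [local instance] Abelian.hasFiniteBiproducts

/-- The weight filtration of mixed motives, seen through its graded pieces `Gr^W_w M`: they are
subquotients of `M`, semisimple, and every simple subquotient of `M` is a subquotient of one of them.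
The motive `H^i(X)` of a smooth projective `X` is pure of weight `i`. -/
structure Weights {k : Type} [Field k] {𝓐 : Type u} [Category.{v} 𝓐] [Abelian 𝓐]
    (T : Theory k 𝓐) where
  /-- `Gr^W_w M` -/
  gr : ℤ → 𝓐 → 𝓐
  sub : ∀ (w : ℤ) (M : 𝓐), SubQuot (gr w M) M
  cover : ∀ M N : 𝓐, Simple N → SubQuot N M → ∃ w : ℤ, SubQuot N (gr w M)
  semisimple : ∀ (w : ℤ) (M : 𝓐), ∃ (n : ℕ) (S : Fin n → 𝓐), (∀ a, Simple (S a)) ∧
    Nonempty (gr w M ≅ ⨁ S)
  pure : ∀ {X : Scheme.{0}} (f : X ⟶ Spec (CommRingCat.of k)), SmoothProjective f →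
    ∀ i : ℤ, Nonempty (gr i (T.H i X f) ≅ T.H i X f)

/-- The `ℓ`-adic realization: an exact functor to representations of the Galois group on finite
dimensional vector spaces over `ℚ_ℓ`. Tate twists do not change semisimplicity. -/
structure Realization {k : Type} [Field k] {𝓐 : Type u} [Category.{v} 𝓐] [Abelian 𝓐]
    (T : Theory k 𝓐) (ℓ : ℕ) [Fact ℓ.Prime] (Γ : Type) [Group Γ] where
  /-- the realization functor -/
  R : 𝓐 ⥤ Rep.{0} ℚ_[ℓ] Γ
  [finiteLimits : PreservesFiniteLimits R]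
  [finiteColimits : PreservesFiniteColimits R]
  [finiteDimensional : ∀ M : 𝓐, FiniteDimensional ℚ_[ℓ] (R.obj M)]
  twist : ∀ (n : ℤ) (M : 𝓐), Semi (R.obj M).ρ → Semi (R.obj ((T.tw n).obj M)).ρ

attribute [instance] Realization.finiteLimits Realization.finiteColimits
  Realization.finiteDimensional

variable {𝓐 : Type u} [Category.{v} 𝓐] [Abelian 𝓐] {T : Theory ℚ 𝓐} {ℓ : ℕ} [Fact ℓ.Prime]
  {Γ : Type} [Group Γ]

/-- There are a number field `L` with the Galois group `Δ` and a smooth projective scheme `Y_s` over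
`L`, which is called `Y` as a scheme over `ℚ`, and a representation `σ` of `Δ`, the cohomology
`H^i(Y_s)`, with the same image as `ρ`, which is a part of `H^i(Y)`. -/
def Specializes (𝓡 : Realization T ℓ Γ) {G V : Type} [Group G] [AddCommGroup V]
    [Module ℚ_[ℓ] V] (ρ : Representation ℚ_[ℓ] G V) : Prop :=
  ∃ (Δ : Subgroup Γ) (σ : Representation ℚ_[ℓ] Δ V) (Y : Scheme.{0})
    (g : Y ⟶ Spec (CommRingCat.of ℚ)) (i : ℤ), Δ.FiniteIndex ∧ SameImage σ ρ ∧
    SmoothProjective g ∧ IsPart Δ σ (𝓡.R.obj (T.H i Y g)).ρ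

/-- The representations `H^i(X_{k̄}, ℚ_ℓ)` of the absolute Galois groups of the fields `k` finitely
generated over `ℚ`, for all smooth projective schemes `X` over such fields `k` and all `i`; the
index set consists of the triples `(k, X, i)`. -/
structure Varieties (𝓡 : Realization T ℓ Γ) extends Family ℚ_[ℓ] where
  /-- for `k = ℚ` these are the realizations of the motives `H^i(X)` -/
  rational : ∀ {X : Scheme.{0}} (f : X ⟶ Spec (CommRingCat.of ℚ)), SmoothProjective f →
    ∀ i : ℤ, ∃ o : Index, SameRep (𝓡.R.obj (T.H i X f)).ρ (ρ o)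
  /-- Let `X` be the generic fibre of a family. Then there is a member `Y_s` over a number field
  `L` such that the images of the Galois groups of `k` and of `L` in `GL(V)`, `V = H^i(X) = H^i(Y_s)`,
  are the same (Serre). The cohomology of `Y_s` as a scheme over `ℚ` is induced from the Galois
  group `Δ` of `L`, so it contains `H^i(Y_s)` as a representation of `Δ`. -/
  specialization : ∀ o : Index, Specializes 𝓡 (ρ o)

/-- All `H^i(X_{k̄}, ℚ_ℓ)` are semisimple. -/
def Varieties.AllSemisimple {𝓡 : Realization T ℓ Γ} (𝓥 : Varieties 𝓡) : Prop :=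
  ∀ o, Semi (𝓥.ρ o)

/-- All `Gr^W_w H_c^j(C_{\bar ℚ}, ℚ_ℓ)` are semisimple, where `C` is a hypersurface
`g_0 t_0 + ⋯ + g_r t_r = 1` over `ℚ`, each `g_i` being of the form `x_a x_b - x_c`,
`x_a + x_b - x_c` or `x_a - 1`. -/
def CubicsSemisimple (𝓦 : Weights T) (𝓡 : Realization T ℓ Γ) : Prop :=
  ∀ M : 𝓐, T.IsHC {1} M → ∀ w : ℤ, Semi (𝓡.R.obj (𝓦.gr w M)).ρ

/-- All `Gr^W_w H_c^i(X_{\bar ℚ}, ℚ_ℓ)`, `X` separated of finite type over `ℚ`, are semisimple. -/
def SchemesSemisimple (𝓦 : Weights T) (𝓡 : Realization T ℓ Γ) : Prop :=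
  ∀ {X : Scheme.{0}} (f : X ⟶ Spec (CommRingCat.of ℚ)), FT True ℚ f →
    ∀ i w : ℤ, Semi (𝓡.R.obj (𝓦.gr w (T.H i X f))).ρ

end Pool.Agent.TH131.Semi
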