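import Mathlib
import Pool.Agent.TH116.SS.Clifford

/-!
# Semisimple representations
-/

set_option autoImplicit false

namespace Pool.Agent.TH131.Semi

/-- The representation `ρ` is semisimple: every stable subspace has a stable complement. -/
def Semi {K G V : Type*} [Field K] [Group G] [AddCommGroup V] [Module K V]
    (ρ : Representation K G V) : Prop :=
  ∀ U : Submodule K V, (∀ s, ∀ u ∈ U, ρ s u ∈ U) →
    ∃ U' : Submodule K V, (∀ s, ∀ u ∈ U', ρ s u ∈ U') ∧ IsCompl U U'

/-- The same representation, up to isomorphisms of the groups and of the spaces. -/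
def SameRep {K G G' V V' : Type*} [Field K] [Group G] [Group G'] [AddCommGroup V] [Module K V]
    [AddCommGroup V'] [Module K V'] (ρ : Representation K G V) (σ : Representation K G' V') :
    Prop :=
  ∃ (e : G ≃* G') (b : V ≃ₗ[K] V'), ∀ g v, b (ρ g v) = σ (e g) (b v)

/-- The images of the two groups in `GL(V)` are the same. -/
def SameImage {K G G' V : Type*} [Field K] [Group G] [Group G'] [AddCommGroup V] [Module K V]
    (σ : Representation K G V) (ρ : Representation K G' V) : Prop :=
  Set.range (fun s => σ s) = Set.range (fun s => ρ s)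

/-- `σ` is a sub-representation of the restriction of `τ` to the subgroup `Δ`. -/
def IsPart {K G V V' : Type*} [Field K] [Group G] [AddCommGroup V] [Module K V]
    [AddCommGroup V'] [Module K V'] (Δ : Subgroup G) (σ : Representation K Δ V)
    (τ : Representation K G V') : Prop :=
  ∃ a : V →ₗ[K] V', Function.Injective a ∧ ∀ s v, a (σ s v) = τ s (a v)

/-- A family of representations `V o` of groups `Gal o`. -/
structure Family (K : Type) [Field K] where
  /-- the index set -/
  Index : Type
  /-- the groups -/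
  Gal : Index → Type
  [group : ∀ o, Group (Gal o)]
  /-- the vector spaces -/
  V : Index → Type
  [addCommGroup : ∀ o, AddCommGroup (V o)]
  [module : ∀ o, Module K (V o)]
  /-- the representations -/
  ρ : ∀ o, Representation K (Gal o) (V o)

attribute [instance] Family.group Family.addCommGroup Family.module

section

variable {K G G' V V' : Type*} [Field K] [Group G] [Group G'] [AddCommGroup V] [Module K V]
  [AddCommGroup V'] [Module K V'] {ρ : Representation K G V} {ρ' : Representation K G' V'}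

/-- sub-representations; the groups may differ if their images correspond to each other -/
lemma Semi.sub (a : V →ₗ[K] V') (ha : Function.Injective a)
    (h1 : ∀ g, ∃ g', ∀ v, a (ρ g v) = ρ' g' (a v))
    (h2 : ∀ g', ∃ g, ∀ v, a (ρ g v) = ρ' g' (a v)) (h : Semi ρ') : Semi ρ := by
  intro U hU
  obtain ⟨W, hW, hc⟩ := h (U.map a) (by
    rintro s _ ⟨u, hu, rfl⟩
    obtain ⟨g, hg⟩ := h2 s
    exact ⟨ρ g u, hU g u hu, hg u⟩)
  refine ⟨W.comap a, fun s u hu => ?_, ?_, ?_⟩
  · obtain ⟨g', hg'⟩ := h1 s
    rw [Submodule.mem_comap, hg']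
    exact hW g' _ hu
  · rw [disjoint_iff, eq_bot_iff]
    rintro u ⟨hu1, hu2⟩
    have h3 : a u ∈ U.map a ⊓ W := ⟨⟨u, hu1, rfl⟩, hu2⟩
    rw [hc.inf_eq_bot, Submodule.mem_bot] at h3
    rw [Submodule.mem_bot]
    exact ha (by rw [h3, map_zero])
  · rw [codisjoint_iff, eq_top_iff]
    intro v _
    have h3 : a v ∈ U.map a ⊔ W := by rw [hc.sup_eq_top]; trivial
    obtain ⟨_, ⟨u, hu, rfl⟩, w, hw, hs⟩ := Submodule.mem_sup.1 h3
    refine Submodule.mem_sup.2 ⟨u, hu, v - u, ?_, by abel⟩
    rw [Submodule.mem_comap, map_sub, ← hs, add_sub_cancel_left]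
    exact hw

/-- quotient representations -/
lemma Semi.quot {ρ' : Representation K G V'} (p : V' →ₗ[K] V) (hp : Function.Surjective p)
    (h1 : ∀ g v, p (ρ' g v) = ρ g (p v)) (h : Semi ρ') : Semi ρ := by
  intro U hU
  obtain ⟨W, hW, hc⟩ := h (U.comap p) (by
    intro s u hu
    rw [Submodule.mem_comap, h1]
    exact hU s _ hu)
  refine ⟨W.map p, ?_, ?_, ?_⟩
  · rintro s _ ⟨w, hw, rfl⟩
    exact ⟨ρ' s w, hW s w hw, h1 s w⟩
  · rw [disjoint_iff, eq_bot_iff]
    rintro _ ⟨hu, ⟨w, hw, rfl⟩⟩
    have h3 : w ∈ U.comap p ⊓ W := ⟨hu, hw⟩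
    rw [hc.inf_eq_bot, Submodule.mem_bot] at h3
    rw [Submodule.mem_bot, h3, map_zero]
  · rw [codisjoint_iff, eq_top_iff]
    intro v _
    obtain ⟨v', rfl⟩ := hp v
    have h3 : v' ∈ U.comap p ⊔ W := by rw [hc.sup_eq_top]; trivial
    obtain ⟨u, hu, w, hw, hs⟩ := Submodule.mem_sup.1 h3
    exact Submodule.mem_sup.2 ⟨p u, hu, p w, ⟨w, hw, rfl⟩, by rw [← map_add, hs]⟩

/-- restriction to subgroups of finite index -/
lemma Semi.restrict [CharZero K] [FiniteDimensional K V] (h : Semi ρ) (Δ : Subgroup G)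
    (hΔ : Δ.FiniteIndex) : Semi (ρ.comp Δ.subtype) := by
  intro U hU
  obtain ⟨U', h1, h2⟩ := TH116.SS.compl_finiteIndex ρ h Δ hΔ U fun s hs u hu => hU ⟨s, hs⟩ u hu
  exact ⟨U', fun s u hu => h1 s s.2 u hu, h2⟩

lemma semi_iff : Semi ρ ↔ IsSemisimpleModule (MonoidAlgebra K G) ρ.asModule := by
  rw [← Representation.isSemisimpleRepresentation_iff_isSemisimpleModule_asModule]
  constructor
  · intro h
    refine ⟨fun σ => ?_⟩
    obtain ⟨U', hU', hc⟩ := h σ.toSubmodule fun s u hu => σ.apply_mem_toSubmodule s hu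
    let σ' : Subrepresentation ρ := ⟨U', fun s u hu => hU' s u hu⟩
    refine ⟨σ', ?_, ?_⟩
    · rw [disjoint_iff]
      apply Subrepresentation.toSubmodule_injective
      rw [Subrepresentation.toSubmodule_inf]
      exact hc.inf_eq_bot
    · rw [codisjoint_iff]
      apply Subrepresentation.toSubmodule_injective
      rw [Subrepresentation.toSubmodule_sup]
      exact hc.sup_eq_top
  · intro h U hU
    obtain ⟨σ', hc⟩ := h.exists_isCompl (⟨U, fun s u hu => hU s u hu⟩ : Subrepresentation ρ)
    refine ⟨σ'.toSubmodule, fun s u hu => σ'.apply_mem_toSubmodule s hu, ?_, ?_⟩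
    · rw [disjoint_iff]
      have h1 := congrArg Subrepresentation.toSubmodule hc.inf_eq_bot
      rw [Subrepresentation.toSubmodule_inf] at h1
      exact h1
    · rw [codisjoint_iff]
      have h1 := congrArg Subrepresentation.toSubmodule hc.sup_eq_top
      rw [Subrepresentation.toSubmodule_sup] at h1
      exact h1

end

end Pool.Agent.TH131.Semi
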