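import Pool.Agent.TH131.Semi.Defs
import Pool.Agent.TH131.Ord.Main

/-!
# Semisimplicity of `ℓ`-adic cohomology: the dévissage
-/

set_option autoImplicit false

open CategoryTheory CategoryTheory.Limits AlgebraicGeometry

namespace Pool.Agent.TH131.Semi

open Pool.Agent.TH90.Cub Pool.Agent.TH590.JH

universe v u

attribute [local instance] Abelian.hasFiniteBiproducts

section

variable {𝓐 : Type u} [Category.{v} 𝓐] [Abelian 𝓐] {K : Type} [Field K] {Γ : Type} [Group Γ]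
  (R : 𝓐 ⥤ Rep.{0} K Γ)

lemma semi_subquot [PreservesFiniteLimits R] [PreservesFiniteColimits R] {M N : 𝓐}
    (h : SubQuot M N) (hN : Semi (R.obj N).ρ) : Semi (R.obj M).ρ := by
  obtain ⟨Y, i, p, hi, hp⟩ := h
  have h1 : Mono (R.map i) := inferInstance
  have h2 : Epi (R.map p) := inferInstance
  have h3 : Semi (R.obj Y).ρ := by
    refine Semi.sub (ρ' := (R.obj N).ρ) (R.map i).hom.toLinearMap
      ((Rep.mono_iff_injective _).1 h1) (fun g => ⟨g, fun v => ?_⟩) (fun g => ⟨g, fun v => ?_⟩) hN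
    · exact (Rep.hom_comm_apply (R.map i) g v)
    · exact (Rep.hom_comm_apply (R.map i) g v)
  refine Semi.quot (ρ' := (R.obj Y).ρ) (R.map p).hom.toLinearMap
    ((Rep.epi_iff_surjective _).1 h2) (fun g v => ?_) h3
  exact (Rep.hom_comm_apply (R.map p) g v)

lemma semi_iff_module (A : Rep.{0} K Γ) : Semi A.ρ ↔
    IsSemisimpleModule (MonoidAlgebra K Γ) (Rep.toModuleMonoidAlgebra.obj A) :=
  semi_iff

lemma semi_sum [PreservesFiniteLimits R] [PreservesFiniteColimits R] {n : ℕ} (S : Fin n → 𝓐)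
    (h : ∀ a, Semi (R.obj (S a)).ρ) : Semi (R.obj (⨁ S)).ρ := by
  let F : 𝓐 ⥤ ModuleCat (MonoidAlgebra K Γ) := R ⋙ Rep.toModuleMonoidAlgebra
  have h1 : PreservesFiniteLimits F := inferInstance
  have h2 : PreservesFiniteColimits F := inferInstance
  have h3 : F.PreservesZeroMorphisms := inferInstance
  have h4 : PreservesBiproduct S F := preservesBiproduct_of_preservesProduct F
  rw [semi_iff_module]
  have e : F.obj (⨁ S) ≅ ⨁ (F.obj ∘ S) := F.mapBiproduct S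
  have e' : ⨁ (F.obj ∘ S) ≅ ModuleCat.of (MonoidAlgebra K Γ) (∀ a, F.obj (S a)) :=
    ModuleCat.biproductIsoPi (F.obj ∘ S)
  have h5 : ∀ a, IsSemisimpleModule (MonoidAlgebra K Γ) (F.obj (S a)) := fun a =>
    (semi_iff_module _).1 (h a)
  have h6 : IsSemisimpleModule (MonoidAlgebra K Γ) (∀ a, F.obj (S a)) := inferInstance
  exact IsSemisimpleModule.congr (e ≪≫ e').toLinearEquiv

end

section

variable {𝓐 : Type u} [Category.{v} 𝓐] [Abelian 𝓐] {ℓ : ℕ} [Fact ℓ.Prime] {Γ : Type} [Group Γ]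

/-- the graded pieces are semisimple if the simple subquotients are -/
lemma semi_gr {k : Type} [Field k] {T : Theory k 𝓐} (𝓦 : Weights T) (𝓡 : Realization T ℓ Γ)
    (w : ℤ) (M : 𝓐) (h : ∀ N : 𝓐, Simple N → SubQuot N M → Semi (𝓡.R.obj N).ρ) :
    Semi (𝓡.R.obj (𝓦.gr w M)).ρ := by
  obtain ⟨n, S, hS, ⟨e⟩⟩ := 𝓦.semisimple w M
  have h1 : Semi (𝓡.R.obj (⨁ S)).ρ := by
    refine semi_sum 𝓡.R S fun a => ?_
    have h2 : SubQuot (S a) (⨁ S) := ⟨S a, biproduct.ι S a, 𝟙 _, inferInstance, inferInstance⟩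
    exact h _ (hS a) ((h2.of_iso e.symm).trans (𝓦.sub w M))
  exact semi_subquot 𝓡.R ((SubQuot.refl (𝓦.gr w M)).of_iso e) h1

/-- a simple subquotient of a twist of `N` is semisimple, if those of `N` are -/
lemma semi_tw {k : Type} [Field k] {T : Theory k 𝓐} (𝓡 : Realization T ℓ Γ) (N : 𝓐)
    (h : ∀ M : 𝓐, Simple M → SubQuot M N → Semi (𝓡.R.obj M).ρ) (m : ℤ) (M : 𝓐) (hM : Simple M)
    (hq : SubQuot M ((T.tw m).obj N)) : Semi (𝓡.R.obj M).ρ := by
  obtain ⟨e⟩ := T.twIso m (-m) (by ring)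
  have h2 := (hq.map (T.tw (-m))).of_iso (e.app _)
  have h3 := simple_obj (T.tw (-m)) M
  have h4 := 𝓡.twist m _ (h _ h3 h2)
  obtain ⟨e'⟩ := T.twIso (-m) m (by ring)
  exact semi_subquot 𝓡.R ((SubQuot.refl M).of_iso (e'.app M).symm) h4

/-- Over any field of characteristic zero: the dévissage. -/
theorem main {k : Type} [Field k] (T : WeightTheory k 𝓐) (𝓦 : Weights T.toTheory)
    (𝓡 : Realization T.toTheory ℓ Γ) {S : Set k} (hS : Subfield.closure S = ⊤) (h1 : (1 : k) ∈ S) :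
    ((∀ {X : Scheme.{0}} (f : X ⟶ Spec (CommRingCat.of k)), SmoothProjective f → ∀ i : ℤ,
      Semi (𝓡.R.obj (T.H i X f)).ρ) ↔
      ∀ M : 𝓐, T.IsHC S M → ∀ w : ℤ, Semi (𝓡.R.obj (𝓦.gr w M)).ρ) ∧
    ((∀ {X : Scheme.{0}} (f : X ⟶ Spec (CommRingCat.of k)), SmoothProjective f → ∀ i : ℤ,
      Semi (𝓡.R.obj (T.H i X f)).ρ) →
      ∀ {X : Scheme.{0}} (f : X ⟶ Spec (CommRingCat.of k)), FT True k f → ∀ i w : ℤ,
        Semi (𝓡.R.obj (𝓦.gr w (T.H i X f))).ρ) := by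
  have all : (∀ {X : Scheme.{0}} (f : X ⟶ Spec (CommRingCat.of k)), SmoothProjective f →
      ∀ i : ℤ, Semi (𝓡.R.obj (T.H i X f)).ρ) →
      ∀ {X : Scheme.{0}} (f : X ⟶ Spec (CommRingCat.of k)), FT True k f → ∀ i w : ℤ,
        Semi (𝓡.R.obj (𝓦.gr w (T.H i X f))).ρ := by
    intro h X f hf i w
    refine semi_gr 𝓦 𝓡 w _ fun N hN hq => ?_
    obtain ⟨Y, g, j, m, hg, hq'⟩ := Ord.smooth_of_simple T f hf i N hN hq
    exact semi_tw 𝓡 _ (fun M _ hM => semi_subquot 𝓡.R hM (h g hg j)) m N hN hq'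
  refine ⟨⟨fun h M hM w => ?_, fun h X f hf i => ?_⟩, all⟩
  · obtain ⟨n, r, g, j, hg, rfl⟩ := hM
    exact all h (str k (Cubic g)) (cubic_ft g) j w
  · obtain ⟨e⟩ := 𝓦.pure f hf i
    refine semi_subquot 𝓡.R ((SubQuot.refl (T.H i X f)).of_iso e.symm) ?_
    refine semi_gr 𝓦 𝓡 i _ fun N hN hq => ?_
    obtain ⟨e0⟩ := T.tw_zero
    obtain ⟨n, r, g, hg, j, m, hq'⟩ := T.toTheory.fromCubic hS h1 f hf.ft i 0 N hN
      (hq.of_iso (e0.symm.app _))
    refine semi_tw 𝓡 (T.HC j g) (fun M hM hqM => ?_) m N hN hq'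
    obtain ⟨w, hw⟩ := 𝓦.cover _ M hM hqM
    exact semi_subquot 𝓡.R hw (h _ ⟨n, r, g, j, hg, rfl⟩ w)

/-- All fields finitely generated over `ℚ` at once. -/
theorem main_all (T : WeightTheory ℚ 𝓐) (𝓦 : Weights T.toTheory)
    (𝓡 : Realization T.toTheory ℓ Γ) (𝓥 : Varieties 𝓡) :
    (𝓥.AllSemisimple ↔ CubicsSemisimple 𝓦 𝓡) ∧ (𝓥.AllSemisimple → SchemesSemisimple 𝓦 𝓡) := by
  obtain ⟨h1, h2⟩ := main T 𝓦 𝓡 (S := {1}) closure_one_rat (Set.mem_singleton 1)
  have h3 : 𝓥.AllSemisimple ↔ ∀ {X : Scheme.{0}} (f : X ⟶ Spec (CommRingCat.of ℚ)),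
      SmoothProjective f → ∀ i : ℤ, Semi (𝓡.R.obj (T.H i X f)).ρ := by
    constructor
    · intro h X f hf i
      obtain ⟨o, e, b, hb⟩ := 𝓥.rational f hf i
      refine Semi.sub (ρ' := 𝓥.ρ o) b.toLinearMap b.injective (fun g => ⟨e g, fun v => hb g v⟩)
        (fun g => ⟨e.symm g, fun v => ?_⟩) (h o)
      have := hb (e.symm g) v
      rw [MulEquiv.apply_symm_apply] at this
      exact this
    · intro h o
      obtain ⟨Δ, σ, Y, g, i, hΔ, hr, hg, a, ha, hav⟩ := 𝓥.specialization o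
      unfold SameImage at hr
      have h4 : Semi ((𝓡.R.obj (T.H i Y g)).ρ.comp Δ.subtype) := (h g hg i).restrict Δ hΔ
      have h5 : Semi σ := by
        refine Semi.sub a ha (fun s => ⟨s, fun v => ?_⟩) (fun s => ⟨s, fun v => ?_⟩) h4
        · exact hav s v
        · exact hav s v
      refine Semi.sub (ρ' := σ) LinearMap.id Function.injective_id (fun s => ?_) (fun s => ?_) h5
      · have h6 : 𝓥.ρ o s ∈ Set.range (fun s => σ s) := by
          rw [hr]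
          exact ⟨s, rfl⟩
        obtain ⟨t, ht⟩ := h6
        refine ⟨t, fun v => ?_⟩
        change 𝓥.ρ o s v = σ t v
        rw [← ht]
      · have h6 : σ s ∈ Set.range (fun s => 𝓥.ρ o s) := by
          rw [← hr]
          exact ⟨s, rfl⟩
        obtain ⟨t, ht⟩ := h6
        refine ⟨t, fun v => ?_⟩
        change 𝓥.ρ o t v = σ s v
        rw [← ht]
  rw [h3]
  exact ⟨h1, fun h => h2 h⟩

end

end Pool.Agent.TH131.Semi
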